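import Pool.Agent.V11250.CrystalProof

/-!
# MP_881be3_lc, Q1 and Q2: answer no

The group `G` of all isometries of the hyperplane `∑ y = 0` of `ℝ ^ 5` of the form
`y ↦ x + e (y ∘ p⁻¹)`, with `x` an integer vector with `∑ x = 0`, `p` a permutation of the
coordinates and `e` a sign, is an irreducible split crystallographic group of dimension `4` which
is not homogeneous. The definitions are in `Pool.Agent.V11250.Crystal` and
`Pool.Agent.V11250.GroupLang`.
-/

set_option autoImplicit false

namespace Pool.Agent.Results.MP_881be3_lc.NotHomogeneous

open Pool.Agent.V11250.Crystal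

/-- There is an irreducible split crystallographic group of dimension `4` which is not
homogeneous. -/
theorem result : ∃ G : Subgroup (E 4 ≃ᵢ E 4), IsCrystallographic G ∧
    IsSplit G ∧ IsIrreducible G ∧ ¬ Homogeneous G :=
  ⟨Pool.Agent.V11250.CrystalProof.Φ.range,
    ⟨Pool.Agent.V11250.CrystalProof.discrete, Pool.Agent.V11250.CrystalProof.cocompact⟩,
    Pool.Agent.V11250.CrystalProof.split, Pool.Agent.V11250.CrystalProof.irreducible,
    Pool.Agent.V11250.CrystalProof.not_homogeneous⟩

end Pool.Agent.Results.MP_881be3_lc.NotHomogeneous
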